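import Pool.Agent.R17.MST

/-!
# An unweighted oriented graph with multiple state transfer on six vertices

The graph is the one of `Pool.Agent.R17.MST`.  In a suitable invariant subspace of dimension `11` the
skew adjacency matrix has the eigenvalues `480 √3 i m`, `m = -5, …, 5`, and the vertex `a_0` has
the weight `(6 - |m|) / 36` at `m` (the Fejér kernel), so that the walk started at `a_0` passes at
the times `s π / (1440 √3)`, `s = 0, …, 5`, through the six vertices `a_0, …, a_5`.
-/

set_option autoImplicit false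

namespace Pool.Agent.Results.MP_3865e9_co.SixVertices

open Matrix Finset Pool.Agent.R17.MST

open Classical in
/-- The skew adjacency matrix of an oriented graph: `S a b = 1` and `S b a = -1` for every arc
`a → b`, and all other entries are `0`. -/
noncomputable def skewAdj {V : Type} (X : Digraph V) : Matrix V V ℂ :=
  fun a b => if X.Adj a b then 1 else if X.Adj b a then -1 else 0

/-- The transition matrix `U(t) = exp (i t M)`, `M = i S`, of the continuous-time quantum walk. -/
noncomputable def U {V : Type} [Fintype V] [DecidableEq V] (X : Digraph V) (t : ℝ) :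
    Matrix V V ℂ :=
  NormedSpace.exp ((Complex.I * (t : ℂ)) • (Complex.I • skewAdj X))

/-- Perfect state transfer from `a` to `b` at time `t`: `U(t) e_a = α e_b` for some complex
number `α`. -/
def PerfectStateTransfer {V : Type} [Fintype V] [DecidableEq V] (X : Digraph V) (a b : V)
    (t : ℝ) : Prop :=
  ∃ α : ℂ, U X t *ᵥ (Pi.single a 1) = α • (Pi.single b 1 : V → ℂ)

/-- The sixth root of unity. -/
noncomputable def om : ℂ := Complex.exp (Complex.I * Real.pi / 3)

lemma om_eq : om = 1 / 2 + Complex.I * (Real.sqrt 3 : ℂ) / 2 := by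
  unfold om
  have h : Complex.I * Real.pi / 3 = ((Real.pi / 3 : ℝ) : ℂ) * Complex.I := by
    push_cast; ring
  rw [h, Complex.exp_mul_I, ← Complex.ofReal_cos, ← Complex.ofReal_sin, Real.cos_pi_div_three,
    Real.sin_pi_div_three]
  push_cast
  ring

lemma sqrt3_sq : (Real.sqrt 3 : ℂ) ^ 2 = 3 := by
  rw [← Complex.ofReal_pow, Real.sq_sqrt (by norm_num)]
  norm_num

/-- `θ = i √3`. -/
noncomputable def th : ℂ := Complex.I * (Real.sqrt 3 : ℂ)

lemma th_sq : th ^ 2 = -3 := by
  unfold th
  rw [mul_pow, Complex.I_sq, sqrt3_sq]; ring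

lemma om_th : om = (1 + th) / 2 := by
  rw [om_eq]; unfold th; ring

lemma om_sq : om ^ 2 = om - 1 := by
  rw [om_th]
  have := th_sq
  linear_combination (1 / 4) * this

/-- coordinates of the powers of `om` -/
def cA : ZMod 6 → ℤ := ![1, 0, -1, -1, 0, 1]

/-- coordinates of the powers of `om` -/
def cB : ZMod 6 → ℤ := ![0, 1, 1, 0, -1, -1]

/-- the powers of `om` -/
noncomputable def z (j : ZMod 6) : ℂ := cA j + cB j * om

lemma z_add (a b : ZMod 6) : z (a + b) = z a * z b := by
  have h1 : ∀ a b : ZMod 6, cA (a + b) = cA a * cA b - cB a * cB b ∧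
      cB (a + b) = cA a * cB b + cB a * cA b + cB a * cB b := by decide
  obtain ⟨h2, h3⟩ := h1 a b
  unfold z
  rw [h2, h3]
  push_cast
  linear_combination (-(cB a : ℂ) * cB b) * om_sq

lemma z_zero : z 0 = 1 := by
  have h1 : cA 0 = 1 := by decide
  have h2 : cB 0 = 0 := by decide
  unfold z; rw [h1, h2]; push_cast; ring

lemma z_one : z 1 = om := by
  have h1 : cA 1 = 0 := by decide
  have h2 : cB 1 = 1 := by decide
  unfold z; rw [h1, h2]; push_cast; ring

lemma z_neg (a : ZMod 6) : z (-a) * z a = 1 := by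
  rw [← z_add, neg_add_cancel, z_zero]

lemma z_nat (n : ℕ) : z (n : ZMod 6) = om ^ n := by
  induction n with
  | zero => simpa using z_zero
  | succ n ih => push_cast; rw [z_add, ih, z_one, pow_succ]

lemma exp_nat (n : ℕ) : Complex.exp (-(Complex.I * Real.pi * n / 3)) = z (-(n : ZMod 6)) := by
  have h1 : Complex.exp (Complex.I * Real.pi * n / 3) = z (n : ZMod 6) := by
    rw [z_nat, om, ← Complex.exp_nat_mul]
    congr 1; ring
  rw [Complex.exp_neg, h1]
  have h2 := z_neg (n : ZMod 6)
  have h3 : z (n : ZMod 6) ≠ 0 := fun h => by rw [h, mul_zero] at h2; exact zero_ne_one h2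
  field_simp
  rw [mul_comm]
  exact h2.symm

/-- the characters -/
noncomputable def ch (k : ZMod 6) (j : ZMod 6) : ℂ := z (k * j)

lemma ch_add (k i d : ZMod 6) : ch k (i + d) = ch k i * ch k d := by
  unfold ch; rw [mul_add, z_add]

lemma shift_sum (F : ZMod 6 → ℂ) (i : ZMod 6) : ∑ l, F l = ∑ d, F (i + d) :=
  (Equiv.sum_comp (Equiv.addLeft i) F).symm

lemma Lap_ch (c : ℂ) (k i : ZMod 6) :
    Lap (fun j => c * ch k j) i = (c * (3 * (k.val : ℂ) * (6 - (k.val : ℂ)))) * ch k i := by
  unfold Lap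
  rw [shift_sum _ i]
  have h1 : ∀ d : ZMod 6, ((q (i + d - i) : ℂ) / 2) * (c * ch k i - c * ch k (i + d)) =
      (c * ch k i / 2) * ((q d : ℂ) * (1 - ch k d)) := by
    intro d
    rw [ch_add, add_sub_cancel_left]; ring
  simp only [h1]
  rw [← Finset.mul_sum]
  have h2 : ∀ k : ZMod 6, (∑ d, (q d : ℤ) * (1 - cA (k * d))) = 6 * k.val * (6 - k.val) ∧
      (∑ d, (q d : ℤ) * cB (k * d)) = 0 := by decide
  obtain ⟨h3, h4⟩ := h2 k
  have h5 : (∑ d, (q d : ℂ) * (1 - ch k d)) = 6 * (k.val : ℂ) * (6 - (k.val : ℂ)) := by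
    have e3 := congrArg (fun x : ℤ => (x : ℂ)) h3
    have e4 := congrArg (fun x : ℤ => (x : ℂ)) h4
    push_cast at e3 e4
    have : (∑ d, (q d : ℂ) * (1 - ch k d)) =
        (∑ d, (q d : ℂ) * (1 - (cA (k * d) : ℂ))) - (∑ d, (q d : ℂ) * (cB (k * d) : ℂ)) * om := by
      rw [Finset.sum_mul, ← Finset.sum_sub_distrib]
      refine Finset.sum_congr rfl fun d _ => ?_
      unfold ch z; ring
    rw [this, e3, e4]; ring
  rw [h5]; ring

lemma MM_ch (c : ℂ) (k i : ZMod 6) (hk : k ≠ 0) :
    MM (fun j => c * ch k j) i = (c * (th * (2 * (k.val : ℂ) - 6))) * ch k i := by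
  unfold MM
  rw [shift_sum _ i]
  have h1 : ∀ d : ZMod 6, (M0 (i + d - i) : ℂ) * (c * ch k (i + d)) =
      (c * ch k i) * ((M0 d : ℂ) * ch k d) := by
    intro d
    rw [ch_add, add_sub_cancel_left]; ring
  simp only [h1]
  rw [← Finset.mul_sum]
  have h2 : ∀ k : ZMod 6, k ≠ 0 → (∑ d, M0 d * cA (k * d)) = -(2 * k.val - 6) ∧
      (∑ d, M0 d * cB (k * d)) = 2 * (2 * k.val - 6) := by decide
  obtain ⟨h3, h4⟩ := h2 k hk
  have h5 : (∑ d, (M0 d : ℂ) * ch k d) = th * (2 * (k.val : ℂ) - 6) := by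
    have e3 := congrArg (fun x : ℤ => (x : ℂ)) h3
    have e4 := congrArg (fun x : ℤ => (x : ℂ)) h4
    push_cast at e3 e4
    have : (∑ d, (M0 d : ℂ) * ch k d) =
        (∑ d, (M0 d : ℂ) * (cA (k * d) : ℂ)) + (∑ d, (M0 d : ℂ) * (cB (k * d) : ℂ)) * om := by
      rw [Finset.sum_mul, ← Finset.sum_add_distrib]
      refine Finset.sum_congr rfl fun d _ => ?_
      unfold ch z; ring
    rw [this, e3, e4, om_th]; ring
  rw [h5]; ring

lemma FF_lin (a b : ℂ) (f h f' h' : ZMod 6 → ℂ) :
    FF bb (fun i => a * f i + b * f' i) (fun i => a * h i + b * h' i) =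
      a • FF bb f h + b • FF bb f' h' := by
  funext u
  rcases u with i | y
  · simp [FF]
  · simp only [FF, Pi.add_apply, Pi.smul_apply, smul_eq_mul]; ring

lemma FF_smul (a : ℂ) (f h : ZMod 6 → ℂ) :
    FF bb (fun i => a * f i) (fun i => a * h i) = a • FF bb f h := by
  funext u
  rcases u with i | y
  · simp [FF]
  · simp only [FF, Pi.smul_apply, smul_eq_mul]; ring

/-- the eigenvectors -/
lemma eigen (k : ZMod 6) (hk : k ≠ 0) (c L : ℂ)
    (h1 : -480 * (c * (3 * (k.val : ℂ) * (6 - (k.val : ℂ)))) = L)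
    (h2 : 480 * (1 + c * (th * (2 * (k.val : ℂ) - 6))) = L * c) :
    Sm bb *ᵥ FF bb (ch k) (fun j => c * ch k j) = L • FF bb (ch k) (fun j => c * ch k j) := by
  rw [mulVec_FF, ← FF_smul]
  congr 1
  · funext i
    rw [Lap_ch, ← h1]; ring
  · funext i
    rw [MM_ch _ _ _ hk, ← mul_assoc L, ← h2]; ring

/-- the graph -/
def X : Digraph (VV bb) where
  Adj u v := sg bb u v = 1

lemma skewAdj_X : skewAdj X = Sm bb := by
  funext u v
  have hX : ∀ u v, X.Adj u v ↔ sg bb u v = 1 := fun _ _ => Iff.rfl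
  simp only [skewAdj, hX, Sm]
  rw [sg_skew bb u v]
  rcases sg_cases bb u v with h | h | h <;> rw [h] <;> norm_num

lemma U_X (t : ℝ) : U X t = NormedSpace.exp (-(t : ℂ) • Sm bb) := by
  unfold U
  rw [skewAdj_X, smul_smul]
  congr 2
  linear_combination (t : ℂ) * Complex.I_sq

lemma U_eigen {t : ℝ} {v : VV bb → ℂ} {L : ℂ} (h : Sm bb *ᵥ v = L • v) :
    U X t *ᵥ v = Complex.exp (-(t : ℂ) * L) • v := by
  rw [U_X]
  apply Pool.Agent.R17.ExpEig.exp_mulVec_of_eigen
  rw [Matrix.smul_mulVec, h, smul_smul]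

/-- the times -/
noncomputable def tt (s : ℕ) : ℝ := Real.pi * s / (1440 * Real.sqrt 3)

lemma tt_th (s : ℕ) : (tt s : ℂ) * (480 * th) = Complex.I * Real.pi * s / 3 := by
  unfold tt th
  have h3 : (Real.sqrt 3 : ℂ) ≠ 0 := by
    intro h
    have := sqrt3_sq
    rw [h] at this
    norm_num at this
  push_cast
  field_simp
  ring

lemma U_ch (s : ℕ) (k : ZMod 6) :
    U X (tt s) *ᵥ FF bb (ch k) (fun _ => 0) = z (-((s : ZMod 6) * k)) • FF bb (ch k) (fun _ => 0) := by
  by_cases hk : k = 0
  · subst hk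
    have h1 : Sm bb *ᵥ FF bb (ch 0) (fun _ => 0) = (0 : ℂ) • FF bb (ch 0) (fun _ => 0) := by
      rw [mulVec_FF, zero_smul]
      have hc : ∀ i, ch 0 i = 1 := fun i => by unfold ch; rw [zero_mul, z_zero]
      have hL : ∀ i, Lap (fun _ => 0) i = 0 := fun i => by unfold Lap; simp
      have hM : ∀ i, MM (fun _ => 0) i = 0 := fun i => by unfold MM; simp
      funext u
      rcases u with i | y
      · simp [FF, hL]
      · simp [FF, hM, hc]
    rw [U_eigen h1, mul_zero, mul_zero, neg_zero, z_zero, Complex.exp_zero]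
  · have hv : ∀ k : ZMod 6, k ≠ 0 → 0 < k.val ∧ k.val < 6 := by decide
    obtain ⟨hk1, hk2⟩ := hv k hk
    have hk1' : (k.val : ℂ) ≠ 0 := by exact_mod_cast hk1.ne'
    have hk2' : (6 - (k.val : ℂ)) ≠ 0 := by
      intro h
      have : (k.val : ℂ) = (6 : ℕ) := by push_cast; linear_combination -h
      have := Nat.cast_injective (R := ℂ) this
      omega
    have hcast : ((s * k.val : ℕ) : ZMod 6) = (s : ZMod 6) * k := by
      push_cast; rw [ZMod.natCast_zmod_val]
    -- the two eigenvectors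
    set c1 : ℂ := -th / (3 * (6 - (k.val : ℂ))) with hc1
    set c2 : ℂ := th / (3 * (k.val : ℂ)) with hc2
    have e1 : c1 * (3 * (6 - (k.val : ℂ))) = -th := by rw [hc1]; field_simp
    have e2 : c2 * (3 * (k.val : ℂ)) = th := by rw [hc2]; field_simp
    have E1 := eigen k hk c1 (480 * th * k.val)
      (by linear_combination (-480 * (k.val : ℂ)) * e1)
      (by linear_combination (-160 * th) * e1 + 160 * th_sq)
    have E2 := eigen k hk c2 (480 * th * (k.val - 6))
      (by linear_combination (-480 * (6 - (k.val : ℂ))) * e2)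
      (by linear_combination (160 * th) * e2 + 160 * th_sq)
    have D : FF bb (ch k) (fun _ => 0) = ((6 - (k.val : ℂ)) / 6) • FF bb (ch k) (fun j => c1 * ch k j) +
        ((k.val : ℂ) / 6) • FF bb (ch k) (fun j => c2 * ch k j) := by
      rw [← FF_lin]
      congr 1
      · funext i; ring
      · funext i
        rw [hc1, hc2]; field_simp; ring
    have P1 : Complex.exp (-(tt s : ℂ) * (480 * th * k.val)) = z (-((s : ZMod 6) * k)) := by
      rw [← hcast, ← exp_nat]
      congr 1
      have := tt_th s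
      push_cast
      linear_combination (-(k.val : ℂ)) * this
    have P2 : Complex.exp (-(tt s : ℂ) * (480 * th * (k.val - 6))) = z (-((s : ZMod 6) * k)) := by
      rw [← P1]
      have := tt_th s
      have e : -(tt s : ℂ) * (480 * th * (k.val - 6)) =
          -(tt s : ℂ) * (480 * th * k.val) + (s : ℂ) * (2 * Real.pi * Complex.I) := by
        linear_combination 6 * this
      rw [e, Complex.exp_add]
      have : Complex.exp ((s : ℂ) * (2 * Real.pi * Complex.I)) = 1 := by
        rw [Complex.exp_eq_one_iff]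
        exact ⟨s, by push_cast; ring⟩
      rw [this, mul_one]
    rw [D, Matrix.mulVec_add, Matrix.mulVec_smul, Matrix.mulVec_smul, U_eigen E1, U_eigen E2, P1, P2,
      smul_add, smul_comm _ (z (-((s : ZMod 6) * k))), smul_comm _ (z (-((s : ZMod 6) * k)))]

lemma single_eq (a : ZMod 6) : (Pi.single (Sum.inl a) 1 : VV bb → ℂ) =
    ∑ k : ZMod 6, (z (-(k * a)) / 6) • FF bb (ch k) (fun _ => 0) := by
  have h0 : ∀ d : ZMod 6, (∑ k, z (k * d)) = if d = 0 then 6 else 0 := by
    intro d
    have h1 : ∀ d : ZMod 6, (∑ k, cA (k * d)) = (if d = 0 then 6 else 0) ∧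
        (∑ k, cB (k * d)) = 0 := by decide
    obtain ⟨h2, h3⟩ := h1 d
    have e2 := congrArg (fun x : ℤ => (x : ℂ)) h2
    have e3 := congrArg (fun x : ℤ => (x : ℂ)) h3
    push_cast at e2 e3
    unfold z
    rw [Finset.sum_add_distrib, ← Finset.sum_mul, e2, e3]
    split_ifs <;> ring
  funext u
  rcases u with j | y
  · rw [Finset.sum_apply]
    have h1 : ∀ k : ZMod 6, ((z (-(k * a)) / 6) • FF bb (ch k) (fun _ => 0)) (Sum.inl j) =
        z (k * (j - a)) / 6 := by
      intro k
      simp only [Pi.smul_apply, smul_eq_mul, FF, ch]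
      have : k * (j - a) = -(k * a) + k * j := by ring
      rw [this, z_add]; ring
    simp only [h1]
    rw [← Finset.sum_div, h0]
    by_cases hj : j = a
    · subst hj; simp
    · have : j - a ≠ 0 := sub_ne_zero.2 hj
      rw [if_neg this, Pi.single_eq_of_ne (by simpa using hj)]; simp
  · rw [Finset.sum_apply]
    have h1 : ∀ k : ZMod 6, ((z (-(k * a)) / 6) • FF bb (ch k) (fun _ => 0)) (Sum.inr y) = 0 := by
      intro k
      simp [FF]
    simp only [h1, Finset.sum_const_zero]
    rw [Pi.single_eq_of_ne (by simp)]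

lemma transfer (a : ZMod 6) (s : ℕ) :
    U X (tt s) *ᵥ (Pi.single (Sum.inl a) 1) = (Pi.single (Sum.inl (a + s)) 1 : VV bb → ℂ) := by
  rw [single_eq a, single_eq (a + s), Matrix.mulVec_sum]
  refine Finset.sum_congr rfl fun k _ => ?_
  rw [Matrix.mulVec_smul, U_ch, smul_smul]
  congr 1
  have : -(k * (a + s)) = -(k * a) + -((s : ZMod 6) * k) := by ring
  rw [this, z_add]; ring

/-- **Multiple state transfer on six vertices.**  There is a finite unweighted oriented graph `X`
and a set `S` of six of its vertices such that for all distinct `a, b ∈ S` there is perfect state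
transfer from `a` to `b` at some time `t > 0`. -/
theorem result : ∃ (V : Type) (_ : Fintype V) (_ : DecidableEq V) (X : Digraph V),
    (∀ a b, X.Adj a b → ¬ X.Adj b a) ∧
    ∃ S : Finset V, S.card = 6 ∧
      ∀ a ∈ S, ∀ b ∈ S, a ≠ b → ∃ t : ℝ, 0 < t ∧ PerfectStateTransfer X a b t := by
  refine ⟨VV bb, inferInstance, inferInstance, X, ?_, (Finset.univ : Finset (ZMod 6)).image Sum.inl,
    ?_, ?_⟩
  · intro u v h h'
    have h1 : sg bb u v = 1 := h
    have h2 : sg bb v u = 1 := h'
    rw [sg_skew bb u v, h1] at h2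
    exact absurd h2 (by norm_num)
  · rw [Finset.card_image_of_injective _ Sum.inl_injective]
    rfl
  · intro u hu v hv huv
    obtain ⟨a, -, rfl⟩ := Finset.mem_image.1 hu
    obtain ⟨b, -, rfl⟩ := Finset.mem_image.1 hv
    have hab : b - a ≠ 0 := fun h => huv (by rw [sub_eq_zero.1 h])
    refine ⟨tt (b - a).val, ?_, 1, ?_⟩
    · have h1 : 0 < (b - a).val := by
        rcases Nat.eq_zero_or_pos (b - a).val with h | h
        · exact absurd ((ZMod.val_eq_zero _).1 h) hab
        · exact h
      have h2 : (0 : ℝ) < ((b - a).val : ℝ) := by exact_mod_cast h1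
      unfold tt
      positivity
    · rw [transfer, one_smul, ZMod.natCast_zmod_val, add_sub_cancel]

end Pool.Agent.Results.MP_3865e9_co.SixVertices
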